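import Mathlib
import Pool.Agent.Lib.MP_5bb92a_co.Ins.Main

/-!
# MP_5bb92a_co: every thin cylinder packs with density larger than `π/√12`
-/

set_option autoImplicit false

open MeasureTheory Set Filter Topology

namespace Pool.Agent.Results.MP_5bb92a_co.ThinCylinders

/-- the solid right circular cylinder of radius `1` and height `h` -/
def Cyl (h : ℝ) : Set (EuclideanSpace ℝ (Fin 3)) :=
  {p | p 0 ^ 2 + p 1 ^ 2 ≤ 1 ∧ 0 ≤ p 2 ∧ p 2 ≤ h}

/-- the part of the ball of radius `R` centred at the origin that is covered by `U` -/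
noncomputable def covered (U : Set (EuclideanSpace ℝ (Fin 3))) (R : ℝ) : ENNReal :=
  volume (U ∩ Metric.ball (0 : EuclideanSpace ℝ (Fin 3)) R) /
    volume (Metric.ball (0 : EuclideanSpace ℝ (Fin 3)) R)

/-- the packing density of `K`: the supremum of the upper densities of the sets of isometric copies
of `K` with pairwise disjoint interiors -/
noncomputable def packingDensity (K : Set (EuclideanSpace ℝ (Fin 3))) : ENNReal :=
  ⨆ (P : Set (Set (EuclideanSpace ℝ (Fin 3))))
    (_ : (∀ A ∈ P, ∃ f : EuclideanSpace ℝ (Fin 3) ≃ᵢ EuclideanSpace ℝ (Fin 3), A = f '' K) ∧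
      (∀ A ∈ P, ∀ B ∈ P, A ≠ B → Disjoint (interior A) (interior B))),
    limsup (covered (⋃₀ P)) atTop

/-- For every height `0 < h ≤ 1/40000` the number `(1 - h) π / 3.464` is larger than `π/√12`, a
family of congruent copies of the cylinder with disjoint interiors has at least this LOWER density,
and the packing density of the cylinder is larger than `π/√12`. -/
theorem result (h : ℝ) (h0 : 0 < h) (h1 : h ≤ 1 / 40000) :
    Real.pi / Real.sqrt 12 < (1 - h) * Real.pi / 3.464 ∧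
    (∃ g : ℤ × ℤ × ℤ → (EuclideanSpace ℝ (Fin 3) ≃ᵢ EuclideanSpace ℝ (Fin 3)),
      (∀ i j, i ≠ j → Disjoint (interior (g i '' Cyl h)) (interior (g j '' Cyl h))) ∧
      ENNReal.ofReal ((1 - h) * Real.pi / 3.464) ≤ liminf (covered (⋃ i, g i '' Cyl h)) atTop) ∧
    ENNReal.ofReal ((1 - h) * Real.pi / 3.464) ≤ packingDensity (Cyl h) ∧
    ENNReal.ofReal (Real.pi / Real.sqrt 12) < packingDensity (Cyl h) := by
  have hr : (2 : ℝ) * Pool.Agent.Lib.MP_5bb92a_co.rho = 3.464 := by
    unfold Pool.Agent.Lib.MP_5bb92a_co.rho; norm_num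
  have hlt := Pool.Agent.Lib.MP_5bb92a_co.Ins.value_lt h h0 h1
  have hex := Pool.Agent.Lib.MP_5bb92a_co.Ins.exists_packing h h0 (by linarith)
  rw [hr, ← mul_div_assoc] at hlt hex
  obtain ⟨g, hg1, hg2⟩ := hex
  have hg2' : ENNReal.ofReal ((1 - h) * Real.pi / 3.464) ≤
      liminf (covered (⋃ i, g i '' Cyl h)) atTop := hg2
  have hsup : ENNReal.ofReal ((1 - h) * Real.pi / 3.464) ≤ packingDensity (Cyl h) := by
    refine hg2'.trans ((liminf_le_limsup).trans ?_)
    refine le_iSup₂_of_le (Set.range fun i => g i '' Cyl h) ⟨?_, ?_⟩ ?_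
    · rintro A ⟨i, rfl⟩
      exact ⟨g i, rfl⟩
    · rintro A ⟨i, rfl⟩ B ⟨j, rfl⟩ hne
      apply hg1
      rintro rfl
      exact hne rfl
    · rw [Set.sUnion_range]
  refine ⟨hlt, ⟨g, hg1, hg2'⟩, hsup, lt_of_lt_of_le ?_ hsup⟩
  exact (ENNReal.ofReal_lt_ofReal_iff (lt_trans (by positivity) hlt)).2 hlt

end Pool.Agent.Results.MP_5bb92a_co.ThinCylinders
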